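import Pool.Agent.H74.G.R_seed8.TH80.OMS.Main

/-!
# Structurally stable diffeomorphisms are `Ω`-stable
-/

set_option autoImplicit false
set_option linter.unusedSectionVars false

open scoped Manifold ContDiff Topology
open Filter Set Metric

universe u

namespace Pool.Agent.Y504.CO

open Pool.Agent.H718R2.G Pool.Agent.TH80.OMS

theorem iter_semi {X : Type u} {Y : Type u} {f : X → X} {g : Y → Y} {h : X → Y}
    (hh : ∀ x, h (f x) = g (h x)) (k : ℕ) (x : X) : h (f^[k] x) = g^[k] (h x) := by
  induction k with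
  | zero => rfl
  | succ k ih => rw [Function.iterate_succ_apply', Function.iterate_succ_apply', hh, ih]

theorem omega_conj_mem {X : Type u} [TopologicalSpace X] {f g : X → X} (h : X ≃ₜ X)
    (hh : ∀ x, h (f x) = g (h x)) {x : X} (hx : x ∈ Omega f) : h x ∈ Omega g := by
  intro W hW hxW
  obtain ⟨k, hk, y, hy, hy'⟩ := hx (h ⁻¹' W) (hW.preimage h.continuous) hxW
  refine ⟨k, hk, h y, hy, ?_⟩
  rw [← iter_semi hh]
  exact hy'

theorem omegaConj_of_conj {X : Type u} [TopologicalSpace X] {f g : X → X} (h : X ≃ₜ X)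
    (hh : ∀ x, h (f x) = g (h x)) : OmegaConj f g := by
  have hh' : ∀ x, h.symm (g x) = f (h.symm x) := by
    intro x
    rw [Homeomorph.symm_apply_eq, hh, h.apply_symm_apply]
  refine ⟨h.subtype (fun x => ⟨fun hx => omega_conj_mem h hh hx, fun hx => ?_⟩), ?_⟩
  · have := omega_conj_mem h.symm hh' hx
    rwa [h.symm_apply_apply] at this
  · intro x y hxy
    show g (h x) = h y
    rw [← hh, hxy]

end Pool.Agent.Y504.CO
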