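import Pool.Agent.H74.G.R_seed8.Y504.CO.Stm2
import Pool.Agent.H74.G.R_seed8.TH80.OMS.Main

/-!
# `Ω`-stable diffeomorphisms with a countable nonwandering set: assembly
-/

set_option autoImplicit false
set_option linter.unusedSectionVars false

open scoped Manifold ContDiff Topology
open Filter Set Metric

universe u

namespace Pool.Agent.Y504.CO

open Pool.Agent.H718R2.G Pool.Agent.TH80.OMS

theorem ncard_conj {N : Type u} [TopologicalSpace N] {F G : N → N} (hF : Continuous F)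
    (hG : Continuous G) (h : OmegaConj F G) {k : ℕ} (hk : 1 ≤ k) :
    Set.ncard {x | F^[k] x = x} = Set.ncard {x | G^[k] x = x} := by
  obtain ⟨h, hh⟩ := h
  refine Set.ncard_congr (fun a ha => (h ⟨a, per_mem_omega hk ha⟩ : N)) ?_ ?_ ?_
  · intro a ha
    exact conj_iter hF h hh k ⟨a, per_mem_omega hk ha⟩ ⟨a, per_mem_omega hk ha⟩ ha
  · intro a b ha hb hab
    have := h.injective (Subtype.ext hab)
    exact congrArg Subtype.val this
  · intro b hb
    have hbo : b ∈ Omega G := per_mem_omega hk hb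
    have h2 := conj_iter hG h.symm (conj_symm hF h hh) k ⟨b, hbo⟩ ⟨b, hbo⟩ hb
    refine ⟨(h.symm ⟨b, hbo⟩ : N), h2, ?_⟩
    show (h ⟨(h.symm ⟨b, hbo⟩ : N), _⟩ : N) = b
    have e : (⟨(h.symm ⟨b, hbo⟩ : N), (h.symm ⟨b, hbo⟩).2⟩ : Omega F) = h.symm ⟨b, hbo⟩ := rfl
    rw [e, h.apply_symm_apply]

theorem countable_conj {N : Type u} [TopologicalSpace N] {F G : N → N} (h : OmegaConj F G)
    (hc : (Omega F).Countable) : (Omega G).Countable := by
  obtain ⟨h, -⟩ := h
  have : Countable (Omega F) := hc.to_subtype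
  exact Set.countable_coe_iff.1 h.symm.injective.countable

section main

variable {n : ℕ} {N : Type u} [TopologicalSpace N] [T2Space N] [CompactSpace N]
  [ChartedSpace (V n) N] [IsManifold (𝓡 n) ∞ N]

theorem exists_metric (n : ℕ) (N : Type u) [TopologicalSpace N] [T2Space N] [CompactSpace N]
    [ChartedSpace (V n) N] : TopologicalSpace.MetrizableSpace N :=
  Manifold.metrizableSpace (𝓡 n) N

theorem out_of_metric [TopologicalSpace.MetrizableSpace N] (hT1 : S_T1.{u}) (hT4 : S_T4.{u})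
    (f : N ≃ₜ N) (hc : (Omega f).Countable)
    (hi : ∀ p ∈ Per f, Isolated f p) (hn : ¬ ((Omega f).Finite ∧ Omega f ⊆ Per f)) : Out f := by
  letI : MetricSpace N := TopologicalSpace.metrizableSpaceMetric N
  obtain ⟨H, hH⟩ := hT1 N f hc hi hn
  exact hT4 N f hc hi H hH

theorem asm (hT1 : S_T1.{u}) (hT4 : S_T4.{u}) (hISO : S_ISO.{u}) (hF2 : S_F2.{u}) (hHB : S_HB.{u})
    (hTR : S_TR.{u}) (hMH : S_MH.{u}) (hNC : S_NC.{u}) {r : ℕ∞} (hr : 1 ≤ r) {F : DiffM n N r}
    (hF : OmegaStable n N r F) (hc : (Omega F).Countable) :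
    (Omega F).Finite ∧ Omega F ⊆ Per F ∧ (∀ p ∈ Per F, HypAt n F p) ∧ ∀ k, ¬ Cyc F k := by
  obtain ⟨U₁, hU₁, hFU₁, hfin⟩ := finite_per hr hF
  obtain ⟨U₀, hU₀, hFU₀, hconj⟩ := hF
  have hU : IsOpen[strongTop n N r] (U₀ ∩ U₁) := @IsOpen.inter _ (strongTop n N r) _ _ hU₀ hU₁
  set U := U₀ ∩ U₁ with hUdef
  have hFU : F ∈ U := ⟨hFU₀, hFU₁⟩
  have hcard : ∀ g ∈ U, ∀ g' ∈ U, ∀ k : ℕ, 1 ≤ k →
      Set.ncard {x | g^[k] x = x} = Set.ncard {x | g'^[k] x = x} := by
    intro g hg g' hg' k hk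
    rw [← ncard_conj F.continuous g.continuous (hconj g hg.1) hk,
      ← ncard_conj F.continuous g'.continuous (hconj g' hg'.1) hk]
  have hhyp := hF2 n N r hr U hU (fun g hg => hfin g hg.2) hcard
  have hcount : ∀ g ∈ U, (Omega g).Countable := fun g hg => countable_conj (hconj g hg.1) hc
  have hnh : ∀ g ∈ U, ∀ p z, ¬ Homoclinic g p z := by
    intro g hg p z hz
    obtain ⟨g', hg', ψ, m, L, ζ, h⟩ := hTR n N r hr U hU hhyp g hg p z hz
    exact hMH n N g' g'.continuous ψ m L ζ h (hcount g' hg')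
  have hfp : (Omega F).Finite ∧ Omega F ⊆ Per F := by
    by_contra hn
    have := exists_metric n N
    have hout : Out F := out_of_metric hT1 hT4 F.toHomeomorph hc
      (fun p hp => hISO n N r hr F p hp (hhyp F hFU p hp)) hn
    obtain ⟨g, hg, p, z, hz⟩ := hHB n N r hr F U hU hFU hout
    exact hnh g hg p z hz
  exact ⟨hfp.1, hfp.2, hhyp F hFU, hNC n N r hr U hU hhyp hnh F hFU⟩

end main

end Pool.Agent.Y504.CO
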