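import Pool.Agent.H74.G.R_seed8.Y504.CO.Stm4
import Pool.Agent.H74.G.R_seed8.Y863.CO.TR

/-!
Homoclinic orbits become transverse, second version; adapted from helper863's
`Pool/Agent/Y863/CO/TR.lean`.
-/

set_option autoImplicit false
set_option linter.unusedSectionVars false

open scoped Manifold ContDiff Topology
open Filter Set Metric

universe u

namespace Pool.Agent.Y504.CO.TR2

open Pool.Agent.H718R2.G Pool.Agent.TH80.OMS Pool.Agent.Y504.CO Pool.Agent.Y863.CO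

theorem main (hLin : S_LIN) (hLP : S_LP.{u}) (hT : S_TRK.{u}) : S_TR2.{u} := by
  intro n N _ _ _ _ _ r hr U hU g hg p z hHyp hz
  obtain ⟨⟨m, hm, hp⟩, hzo, ⟨x, hx, hx0, hbot⟩, hom⟩ := hz
  have hginj : Function.Injective g := g.injective
  have hgc : Continuous g := g.continuous
  have hno : ∀ i, x i ∉ orb g p := not_orb hginj hx hm hp (by rw [hx0]; exact hzo)
  have htop : ∀ O : Set N, IsOpen O → orb g p ⊆ O → ∀ᶠ i : ℤ in atTop, x i ∈ O := by
    intro O hO hpO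
    obtain ⟨K, hK⟩ := eventually_atTop.1 (hom O hO hpO)
    refine eventually_atTop.2 ⟨K, fun i hi => ?_⟩
    have h1 := hK i.toNat (by omega)
    rw [← hx0, step_iter hx] at h1
    have e : (0 : ℤ) + (i.toNat : ℤ) = i := by omega
    rwa [e] at h1
  have hxinj := x_inj hx hno htop
  have hfin := orb_finite hm hp
  -- the chart
  obtain ⟨ψ, hψ⟩ := Pool.Agent.W699.SC.gc n N p
  have hsrc : ψ.source ∈ 𝓝 p := ψ.open_source.mem_nhds hψ.src
  -- the phases
  obtain ⟨hT1, hT2⟩ := hT N g hgc hginj p m hm hp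
  obtain ⟨a0, ha0, hta0⟩ := hT1 z hom 1
  obtain ⟨b0, hb0, htb0⟩ := hT2 x hx hbot 1
  obtain ⟨I, hI⟩ := eventually_atTop.1 (hta0.eventually hsrc)
  obtain ⟨J, hJ⟩ := eventually_atTop.1 (htb0.eventually hsrc)
  obtain ⟨a, ha⟩ : ∃ a : ℕ, a = a0 + m * I := ⟨_, rfl⟩
  obtain ⟨b, hb⟩ : ∃ b : ℕ, b = b0 + m * J := ⟨_, rfl⟩
  have ha1 : 1 ≤ a := by rw [ha]; omega
  have hb1 : 1 ≤ b := by rw [hb]; omega
  obtain ⟨t, ht⟩ : ∃ t : ℤ → ℤ, t = fun i => if 1 ≤ i then (a : ℤ) + m * (i - 1) else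
    -(b : ℤ) + m * i := ⟨_, rfl⟩
  have t1 : ∀ i, 1 ≤ i → t i = a + m * (i - 1) := fun i hi => by rw [ht]; exact if_pos hi
  have t2 : ∀ i, i ≤ 0 → t i = -b + m * i := fun i hi => by rw [ht]; exact if_neg (by omega)
  have tz : t 0 = -(b : ℤ) := by rw [t2 0 le_rfl]; ring
  have tone : t 1 = (a : ℤ) := by rw [t1 1 le_rfl]; ring
  have tstep : ∀ i, i ≠ 0 → t (i + 1) = t i + m := by
    intro i hi
    by_cases h : 1 ≤ i
    · rw [t1 i h, t1 (i + 1) (by omega)]
      ring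
    · rw [t2 i (by omega), t2 (i + 1) (by omega)]
      ring
  have hx1 : ∀ i : ℤ, 1 ≤ i → ∃ k : ℕ, i - 1 ≤ k ∧ I ≤ k ∧ x (t i) = g^[a0 + m * k] z := by
    intro i hi
    refine ⟨I + (i - 1).toNat, by omega, by omega, ?_⟩
    rw [← hx0, step_iter hx, t1 i hi, ha]
    congr 1
    have e : ((i - 1).toNat : ℤ) = i - 1 := by omega
    push_cast
    rw [e]
    ring
  have hx2 : ∀ i : ℤ, i ≤ 0 → ∃ k : ℕ, -i ≤ k ∧ J ≤ k ∧ x (t i) = x (-(b0 : ℤ) - m * k) := by
    intro i hi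
    refine ⟨J + (-i).toNat, by omega, by omega, ?_⟩
    rw [t2 i hi, hb]
    congr 1
    have e : ((-i).toNat : ℤ) = -i := by omega
    push_cast
    rw [e]
    ring
  have hts : ∀ i, x (t i) ∈ ψ.source := by
    intro i
    by_cases h : 1 ≤ i
    · obtain ⟨k, _, h2, h3⟩ := hx1 i h
      rw [h3]
      exact hI k h2
    · obtain ⟨k, _, h2, h3⟩ := hx2 i (by omega)
      rw [h3]
      exact hJ k h2
  have hxt : Tendsto (fun i => x (t i)) atTop (𝓝 p) := by
    intro S hS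
    obtain ⟨K, hK⟩ := eventually_atTop.1 (hta0.eventually hS)
    refine eventually_atTop.2 ⟨K + 1, fun i hi => ?_⟩
    obtain ⟨k, h1, _, h3⟩ := hx1 i (by omega)
    show x (t i) ∈ S
    rw [h3]
    exact hK k (by omega)
  have hxb : Tendsto (fun i => x (t i)) atBot (𝓝 p) := by
    intro S hS
    obtain ⟨K, hK⟩ := eventually_atTop.1 (htb0.eventually hS)
    refine eventually_atBot.2 ⟨-K, fun i hi => ?_⟩
    obtain ⟨k, h1, _, h3⟩ := hx2 i (by omega)
    show x (t i) ∈ S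
    rw [h3]
    exact hK k (by omega)
  obtain ⟨ζ, hζ⟩ : ∃ ζ : ℤ → V n, ζ = fun i => ψ (x (t i)) := ⟨_, rfl⟩
  have hζi : ∀ i, ζ i = ψ (x (t i)) := fun i => by rw [hζ]
  have hζs : ∀ i, ψ.symm (ζ i) = x (t i) := fun i => by rw [hζi, ψ.left_inv (hts i)]
  have hψp : Tendsto ψ (𝓝 p) (𝓝 0) := by
    have := ψ.continuousAt hψ.src
    rwa [ContinuousAt, hψ.zero] at this
  have hζt : Tendsto ζ atTop (𝓝 0) := by rw [hζ]; exact hψp.comp hxt
  have hζb : Tendsto ζ atBot (𝓝 0) := by rw [hζ]; exact hψp.comp hxb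
  have hs0 : ψ.symm 0 = p := by rw [← hψ.zero, ψ.left_inv hψ.src]
  -- general facts on a diffeomorphism with the orbit `x`
  have hstep : ∀ h : DiffM n N r, (∀ i, h (x i) = x (i + 1)) → ∀ i, i ≠ 0 →
      h^[m] (x (t i)) = x (t (i + 1)) := by
    intro h hh i hi
    rw [step_iter hh, tstep i hi]
  have hjump : ∀ h : DiffM n N r, (∀ i, h (x i) = x (i + 1)) →
      h^[a + b] (x (t 0)) = x (t 1) := by
    intro h hh
    rw [step_iter hh, tz, tone]
    congr 1
    push_cast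
    ring
  have hdG : ∀ h : DiffM n N r, (∀ i, h (x i) = x (i + 1)) → ∀ i, i ≠ 0 →
      ContDiffAt ℝ 1 (fun v => ψ (h^[m] (ψ.symm v))) (ζ i) := by
    intro h hh i hi
    rw [hζi]
    exact cda hr h m hψ.mem (hts i) (by rw [hstep h hh i hi]; exact hts _)
  have hdΨ : ∀ h : DiffM n N r, (∀ i, h (x i) = x (i + 1)) →
      ContDiffAt ℝ 1 (fun v => ψ (h^[a + b] (ψ.symm v))) (ζ 0) := by
    intro h hh
    rw [hζi]
    exact cda hr h (a + b) hψ.mem (hts 0) (by rw [hjump h hh]; exact hts _)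
  have hd0 : ∀ h : DiffM n N r, h^[m] p = p →
      ContDiffAt ℝ 1 (fun v => ψ (h^[m] (ψ.symm v))) 0 := by
    intro h hh
    have := cda hr h m hψ.mem hψ.src (by rw [hh]; exact hψ.src)
    rwa [hψ.zero] at this
  -- the separation
  obtain ⟨O, C, hO, hC, hOx, hdisj, hoC, hxC⟩ := sep hfin hno hxinj htop hbot (-(b : ℤ))
  obtain ⟨κ, hκ, ρ, hρ, hLPT⟩ := hLP n N r hr g U hU hg ψ hψ.mem (x (-(b : ℤ)))
    (by rw [← tz]; exact hts 0) O hO hOx
  -- the linear perturbation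
  obtain ⟨B, hB⟩ : ∃ B : ℤ → V n →L[ℝ] V n, B = fun i => if i = 0 then
    fderiv ℝ (fun v => ψ (g^[a + b] (ψ.symm v))) (ζ 0) else
      fderiv ℝ (fun v => ψ (g^[m] (ψ.symm v))) (ζ i) := ⟨_, rfl⟩
  have hB0 : B 0 = fderiv ℝ (fun v => ψ (g^[a + b] (ψ.symm v))) (ζ 0) := by
    rw [hB]; exact if_pos rfl
  have hBi : ∀ i, i ≠ 0 → B i = fderiv ℝ (fun v => ψ (g^[m] (ψ.symm v))) (ζ i) := by
    intro i hi
    rw [hB]; exact if_neg hi
  have hcont : Tendsto (fderiv ℝ (fun v => ψ (g^[m] (ψ.symm v)))) (𝓝 0)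
      (𝓝 (fderiv ℝ (fun v => ψ (g^[m] (ψ.symm v))) 0)) :=
    ((hd0 g hp).fderiv_right (m := 0) (by norm_num)).continuousAt
  have hBt : Tendsto B atTop (𝓝 (fderiv ℝ (fun v => ψ (g^[m] (ψ.symm v))) 0)) := by
    refine (hcont.comp hζt).congr' ?_
    filter_upwards [eventually_ge_atTop 1] with i hi
    rw [hBi i (by omega)]
    rfl
  have hBb : Tendsto B atBot (𝓝 (fderiv ℝ (fun v => ψ (g^[m] (ψ.symm v))) 0)) := by
    refine (hcont.comp hζb).congr' ?_
    filter_upwards [eventually_le_atBot (-1)] with i hi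
    rw [hBi i (by omega)]
    rfl
  have hBinj : ∀ i, Function.Injective (B i) := by
    intro i
    by_cases h : i = 0
    · subst h
      rw [hB0, hζi]
      exact inj hr g (a + b) hψ.mem (hts 0) (by rw [hjump g hx]; exact hts _)
    · rw [hBi i h, hζi]
      exact inj hr g m hψ.mem (hts i) (by rw [hstep g hx i h]; exact hts _)
  have hAinj : Function.Injective (fderiv ℝ (fun v => ψ (g^[m] (ψ.symm v))) 0) := by
    have := inj hr g m hψ.mem hψ.src (by rw [hp]; exact hψ.src)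
    rwa [hψ.zero] at this
  have hAn : NoBdd (fun _ => fderiv ℝ (fun v => ψ (g^[m] (ψ.symm v))) 0) := by
    have := hHyp m hm hp ψ hψ.mem hψ.src
    rwa [hψ.zero] at this
  obtain ⟨T, hTκ, hNB⟩ := hLin n B _ hBt hBb hBinj hAinj hAn κ hκ
  obtain ⟨Φ, g', hg', hgΦ, hΦO, hΦl⟩ := hLPT T hTκ
  have hsb : x (-(b : ℤ)) ∈ ψ.source := by rw [← tz]; exact hts 0
  have hΦz : Φ (x (-(b : ℤ))) = x (-(b : ℤ)) := by
    obtain ⟨h1, h2⟩ := hΦl (x (-(b : ℤ))) hsb (by rw [sub_self, norm_zero]; exact hρ)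
    apply ψ.injOn h1 hsb
    rw [h2, sub_self, map_zero, add_zero]
  have hgC : ∀ y ∈ C, g' y = g y := by
    intro y hy
    rw [hgΦ, hΦO y (fun h => Set.disjoint_left.1 hdisj hy h)]
  have hx' : ∀ i, g' (x i) = x (i + 1) := by
    intro i
    by_cases h : i = -(b : ℤ)
    · rw [h, hgΦ, hΦz, hx]
    · rw [hgC _ (hxC i h), hx]
  have hgerm : ∀ i, i ≠ -(b : ℤ) → ∀ᶠ y in 𝓝 (x i), g' y = g y := by
    intro i hi
    filter_upwards [hC.mem_nhds (hxC i hi)] with y hy
    exact hgC y hy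
  have hp' : g'^[m] p = p := by
    have h1 : ∀ k, g'^[k] p = g^[k] p := by
      intro k
      induction k with
      | zero => rfl
      | succ k ih =>
        rw [Function.iterate_succ_apply', Function.iterate_succ_apply', ih]
        exact hgC _ (hoC ⟨k, rfl⟩)
    rw [h1, hp]
  -- the derivatives
  have hsymc : ∀ i, ContinuousAt ψ.symm (ζ i) := by
    intro i
    rw [hζi]
    exact ψ.continuousAt_symm (ψ.map_source (hts i))
  have hfi : ∀ i, i ≠ 0 → fderiv ℝ (fun v => ψ (g'^[m] (ψ.symm v))) (ζ i) = B i := by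
    intro i hi
    rw [hBi i hi]
    apply Filter.EventuallyEq.fderiv_eq
    have h1 : ∀ᶠ y in 𝓝 (x (t i)), g'^[m] y = g^[m] y := by
      apply germ hgc hx
      intro l hl
      apply hgerm
      by_cases h : 1 ≤ i
      · rw [t1 i h]
        have : 0 ≤ (m : ℤ) * (i - 1) := mul_nonneg (by omega) (by omega)
        omega
      · rw [t2 i (by omega)]
        have : (m : ℤ) * i ≤ (m : ℤ) * (-1) := by
          apply mul_le_mul_of_nonneg_left <;> omega
        omega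
    have h2 : ∀ᶠ v in 𝓝 (ζ i), g'^[m] (ψ.symm v) = g^[m] (ψ.symm v) := by
      apply (hsymc i).eventually (p := fun y => g'^[m] y = g^[m] y)
      rw [hζs]
      exact h1
    filter_upwards [h2] with v hv
    rw [hv]
  have hf0 : fderiv ℝ (fun v => ψ (g'^[a + b] (ψ.symm v))) (ζ 0) =
      (B 0) ∘L (ContinuousLinearMap.id ℝ (V n) + T) := by
    have h1 : ∀ᶠ y in 𝓝 (x (-(b : ℤ) + 1)), g'^[a + b - 1] y = g^[a + b - 1] y := by
      apply germ hgc hx
      intro l hl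
      apply hgerm
      omega
    have h2 : ∀ᶠ y in 𝓝 (x (-(b : ℤ))), g'^[a + b - 1] (g' y) = g^[a + b - 1] (g' y) := by
      have h3 : ContinuousAt g' (x (-(b : ℤ))) := g'.continuous.continuousAt
      apply h3.eventually (p := fun y => g'^[a + b - 1] y = g^[a + b - 1] y)
      rw [hx']
      exact h1
    have h4 : ∀ᶠ v in 𝓝 (ζ 0), g'^[a + b - 1] (g' (ψ.symm v)) = g^[a + b - 1] (g' (ψ.symm v)) := by
      apply (hsymc 0).eventually (p := fun y => g'^[a + b - 1] (g' y) = g^[a + b - 1] (g' y))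
      rw [hζs, tz]
      exact h2
    have hab : a + b = (a + b - 1).succ := by omega
    have h5 : (fun v => ψ (g'^[a + b] (ψ.symm v))) =ᶠ[𝓝 (ζ 0)]
        (fun v => ψ (g^[a + b] (ψ.symm v))) ∘ (fun v => v + T (v - ζ 0)) := by
      have h6 : ∀ᶠ v in 𝓝 (ζ 0), v ∈ ψ.target := by
        apply ψ.open_target.mem_nhds
        rw [hζi]
        exact ψ.map_source (hts 0)
      have h7 : ∀ᶠ v in 𝓝 (ζ 0), ‖v - ζ 0‖ < ρ := by
        have : Continuous fun v : V n => ‖v - ζ 0‖ := by fun_prop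
        exact this.continuousAt.eventually_lt continuousAt_const (by simpa using hρ)
      filter_upwards [h4, h6, h7] with v hv4 hv6 hv7
      have h8 := hΦl (ψ.symm v) (ψ.map_target hv6) (by
        rw [ψ.right_inv hv6]
        have e := hζi 0
        rw [tz] at e
        rw [← e]
        exact hv7)
      have e := hζi 0
      rw [tz] at e
      rw [ψ.right_inv hv6, ← e] at h8
      show ψ (g'^[a + b] (ψ.symm v)) = ψ (g^[a + b] (ψ.symm (v + T (v - ζ 0))))
      rw [← h8.2, ψ.left_inv h8.1, hab, Function.iterate_succ_apply, Function.iterate_succ_apply,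
        ← hgΦ]
      exact congrArg ψ hv4
    rw [h5.fderiv_eq, hB0]
    have h9 : HasFDerivAt (fun v => v + T (v - ζ 0)) (ContinuousLinearMap.id ℝ (V n) + T)
        (ζ 0) := by
      have h10 : HasFDerivAt (fun v : V n => v - ζ 0) (ContinuousLinearMap.id ℝ (V n)) (ζ 0) :=
        (hasFDerivAt_id _).sub_const _
      have h11 := T.hasFDerivAt.comp (ζ 0) h10
      rw [ContinuousLinearMap.comp_id] at h11
      exact (hasFDerivAt_id _).add h11
    have h12 : (fun v => v + T (v - ζ 0)) (ζ 0) = ζ 0 := by simp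
    have h13 : HasFDerivAt (fun v => ψ (g^[a + b] (ψ.symm v)))
        (fderiv ℝ (fun v => ψ (g^[a + b] (ψ.symm v))) (ζ 0)) ((fun v => v + T (v - ζ 0)) (ζ 0)) := by
      rw [h12]
      exact ((hdΨ g hx).differentiableAt (by norm_num)).hasFDerivAt
    exact (h13.comp (ζ 0) h9).fderiv
  refine ⟨g', hg', ψ, m, a + b, ζ, ?_⟩
  refine ⟨hm, by omega, ?_, ?_, ?_, ?_, ?_, ?_, ?_⟩
  · rw [← hψ.zero]
    exact ψ.map_source hψ.src
  · intro i
    rw [hζi]
    exact ψ.map_source (hts i)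
  · intro h
    have h1 := hζs 0
    rw [h, hs0] at h1
    exact hno (t 0) (h1 ▸ ⟨0, rfl⟩)
  · rw [hs0, hp']
  · intro i hi
    rw [hζs, hζs, hstep g' hx' i hi]
  · rw [hζs, hζs, hjump g' hx']
  · refine ⟨?_, hd0 g' hp', hζt, hζb, ?_, hdG g' hx', ?_, hdΨ g' hx', ?_, ?_⟩
    · show ψ (g'^[m] (ψ.symm 0)) = 0
      rw [hs0, hp', hψ.zero]
    · intro i hi
      show ψ (g'^[m] (ψ.symm (ζ i))) = ζ (i + 1)
      rw [hζs, hstep g' hx' i hi, hζi]
    · show ψ (g'^[a + b] (ψ.symm (ζ 0))) = ζ 1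
      rw [hζs, hjump g' hx', hζi]
    · have := hypAt_congr g.continuous hC hoC hgC hHyp m hm hp' ψ hψ.mem hψ.src
      rwa [hψ.zero] at this
    · have e : (fun i : ℤ => if i = 0 then
          fderiv ℝ (fun v => ψ (g'^[a + b] (ψ.symm v))) (ζ 0) else
          fderiv ℝ (fun v => ψ (g'^[m] (ψ.symm v))) (ζ i)) =
          fun i => if i = 0 then (B 0) ∘L (ContinuousLinearMap.id ℝ (V n) + T) else B i := by
        funext i
        by_cases h : i = 0
        · rw [if_pos h, if_pos h, hf0]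
        · rw [if_neg h, if_neg h, hfi i h]
      rw [e]
      exact hNB

end Pool.Agent.Y504.CO.TR2
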