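import Pool.Agent.H74.G.R_seed8.Y38.CO.EIG
import Pool.Agent.H74.G.R_seed8.Y504.CO.Plug

/-!
# Hyperbolic periodic points and eigenvalues: the converse direction
-/

set_option autoImplicit false
set_option linter.unusedSectionVars false

open scoped Manifold ContDiff Topology
open Filter Set Metric

universe u

namespace Pool.Agent.Y504.CO.Eig2

open Pool.Agent.H718R2.G Pool.Agent.TH80.OMS Pool.Agent.Y504.CO

theorem root_of_eig {E : Type} [AddCommGroup E] [Module ℝ E] [FiniteDimensional ℝ E]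
    (f : E →ₗ[ℝ] E) (μ : ℂ) (u w : E) (hne : u ≠ 0 ∨ w ≠ 0) (hu : f u = μ.re • u - μ.im • w)
    (hw : f w = μ.im • u + μ.re • w) :
    ((LinearMap.charpoly f).map (algebraMap ℝ ℂ)).IsRoot μ := by
  classical
  set b := Module.finBasis ℝ E with hb
  set M := LinearMap.toMatrix b b f with hM
  set MC := M.map (algebraMap ℝ ℂ) with hMC
  let ξ : Fin (Module.finrank ℝ E) → ℂ := fun j => (⟨b.repr u j, b.repr w j⟩ : ℂ)
  have e1 : ∀ i, M.mulVec (⇑(b.repr u)) i = μ.re * b.repr u i - μ.im * b.repr w i := by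
    intro i
    rw [hM, LinearMap.toMatrix_mulVec_repr, hu]
    simp
  have e2 : ∀ i, M.mulVec (⇑(b.repr w)) i = μ.im * b.repr u i + μ.re * b.repr w i := by
    intro i
    rw [hM, LinearMap.toMatrix_mulVec_repr, hw]
    simp
  have hξ0 : ξ ≠ 0 := by
    intro h0
    rcases hne with h | h
    · apply h
      apply b.repr.map_eq_zero_iff.1
      ext j
      have := congrArg Complex.re (congrFun h0 j)
      simpa [ξ] using this
    · apply h
      apply b.repr.map_eq_zero_iff.1
      ext j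
      have := congrArg Complex.im (congrFun h0 j)
      simpa [ξ] using this
  have hξ1 : MC.mulVec ξ = μ • ξ := by
    funext i
    apply Complex.ext
    · have h3 := e1 i
      simp only [Matrix.mulVec, dotProduct, Complex.re_sum, Pi.smul_apply, smul_eq_mul,
        Complex.mul_re] at h3 ⊢
      rw [← h3]
      refine Finset.sum_congr rfl fun j _ => ?_
      simp [hMC, ξ]
    · have h3 := e2 i
      simp only [Matrix.mulVec, dotProduct, Complex.im_sum, Pi.smul_apply, smul_eq_mul,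
        Complex.mul_im] at h3 ⊢
      rw [add_comm (μ.re * _), ← h3]
      refine Finset.sum_congr rfl fun j _ => ?_
      simp [hMC, ξ]
  have h2 : Module.End.HasEigenvalue (Matrix.toLin' MC) μ :=
    Module.End.hasEigenvalue_of_hasEigenvector (x := ξ) ⟨by
      rw [Module.End.mem_eigenspace_iff, Matrix.toLin'_apply]
      exact hξ1, hξ0⟩
  rw [Module.End.hasEigenvalue_iff_isRoot_charpoly, Matrix.charpoly_toLin', hMC,
    Matrix.charpoly_map, hM, LinearMap.charpoly_toMatrix] at h2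
  exact h2

theorem noBdd_of_root {n : ℕ} (A : V n →L[ℝ] V n)
    (h : ∀ μ : ℂ, ((LinearMap.charpoly (A : V n →ₗ[ℝ] V n)).map (algebraMap ℝ ℂ)).IsRoot μ →
      ‖μ‖ ≠ 1) : NoBdd (fun _ => A) := by
  by_contra hcon
  obtain ⟨θ, u, w, hne, hu, hw⟩ := (Plug.hEIG n A).1 hcon
  refine h ⟨Real.cos θ, Real.sin θ⟩ (root_of_eig _ _ u w hne hu hw) ?_
  have h1 : ‖(⟨Real.cos θ, Real.sin θ⟩ : ℂ)‖ ^ 2 = 1 := by
    rw [Complex.sq_norm, Complex.normSq_mk]
    nlinarith [Real.sin_sq_add_cos_sq θ]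
  nlinarith [norm_nonneg (⟨Real.cos θ, Real.sin θ⟩ : ℂ)]

theorem hypAt_of {n : ℕ} {N : Type u} [TopologicalSpace N] [ChartedSpace (V n) N] {F : N → N}
    {p : N} (h : IsHyperbolicPer n F p) : HypAt n F p := by
  intro m hm hmp ψ hψ hpψ
  obtain ⟨D, hD, hμ⟩ := h.2 m hm hmp ψ hψ hpψ
  rw [hD.fderiv]
  exact noBdd_of_root D hμ

end Pool.Agent.Y504.CO.Eig2
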