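import Pool.Agent.H74.G.R_seed8.Y504.CO.Stm5
import Mathlib

/-!
# If at most countably many recurrent points are not periodic, then all are periodic
-/

set_option autoImplicit false

open scoped Manifold ContDiff Topology
open Filter Set Metric

universe u

namespace Pool.Agent.Y504.CO.RC

open Pool.Agent.H718R2.G Pool.Agent.TH80.OMS Pool.Agent.Y504.CO

theorem main {X : Type u} [TopologicalSpace X] [CompactSpace X]
    [TopologicalSpace.MetrizableSpace X] (f : X → X) (hf : Continuous f)
    (hinj : Function.Injective f) (hc : (Rec f \ Per f).Countable) : Rec f ⊆ Per f := by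
  classical
  letI : MetricSpace X := TopologicalSpace.metrizableSpaceMetric X
  intro x hx
  by_contra hxP
  let C : Set X := range fun i : ℕ => f^[i] x
  have hpre : Preperfect C := by
    rw [preperfect_iff_nhds]
    rintro _ ⟨i, rfl⟩ W hW
    have h1 : f^[i] ⁻¹' W ∈ 𝓝 x := (hf.iterate i).continuousAt hW
    obtain ⟨k, hk, hkW⟩ := hx _ h1
    refine ⟨f^[i] (f^[k] x), ⟨hkW, ⟨i + k, Function.iterate_add_apply _ _ _ _⟩⟩, ?_⟩
    intro he
    exact hxP ⟨k, hk, hinj.iterate i he⟩
  have hperf : Perfect (closure C) := hpre.perfect_closure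
  let K : Set X := closure C
  have hKc : IsCompact K := isClosed_closure.isCompact
  have : CompactSpace K := isCompact_iff_compactSpace.1 hKc
  have hK : ∀ i : ℕ, ∀ y ∈ K, f^[i] y ∈ K := by
    intro i y hy
    have h1 : MapsTo (f^[i]) C C := by
      rintro _ ⟨j, rfl⟩
      exact ⟨i + j, Function.iterate_add_apply _ _ _ _⟩
    exact h1.closure (hf.iterate i) hy
  -- late points of the orbit of `x` in every open set which meets `K`
  have hlate : ∀ U : Set X, IsOpen U → (U ∩ K).Nonempty → ∀ a : ℕ, ∃ b ≥ a, f^[b] x ∈ U := by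
    intro U hU hUK a
    by_contra hcon
    push Not at hcon
    -- `U ∩ C` is contained in the first `a` points
    have h1 : U ∩ C ⊆ (fun i => f^[i] x) '' Iio a := by
      rintro _ ⟨hyU, ⟨i, rfl⟩⟩
      by_contra h2
      exact hcon i (not_lt.1 fun hlt => h2 ⟨i, hlt, rfl⟩) hyU
    have hfin : (U ∩ C).Finite := ((finite_Iio a).image _).subset h1
    obtain ⟨y, hyU, hyK⟩ := hUK
    obtain ⟨c, hcU, hcC⟩ := mem_closure_iff.1 hyK U hU hyU
    -- `c` is not isolated in `C`
    have h3 : IsOpen (U \ ((U ∩ C) \ {c})) := hU.sdiff (hfin.subset diff_subset).isClosed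
    obtain ⟨z, ⟨hz1, hz2⟩, hz3⟩ := preperfect_iff_nhds.1 hpre c hcC _
      (h3.mem_nhds ⟨hcU, fun h => h.2 rfl⟩)
    exact hz1.2 ⟨⟨hz1.1, hz2⟩, hz3⟩
  let B := TopologicalSpace.countableBasis X
  have hBb : TopologicalSpace.IsTopologicalBasis B := TopologicalSpace.isBasis_countableBasis X
  have hBc : B.Countable := TopologicalSpace.countable_countableBasis X
  -- the closed sets
  let ι := (↥(Rec f \ Per f) ⊕ ℕ) ⊕ (↥B)
  have : Countable ↥(Rec f \ Per f) := hc.to_subtype
  have : Countable B := hBc.to_subtype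
  let E : ι → Set K := fun t => Sum.elim (Sum.elim
    (fun r : ↥(Rec f \ Per f) => {y : K | (y : X) = r}) (fun k : ℕ => {y : K | f^[k + 1] (y : X) = y}))
    (fun U : B => if ((U : Set X) ∩ K).Nonempty then {y : K | ∀ i : ℕ, f^[i] (y : X) ∉ (U : Set X)}
      else ∅) t
  have hE : ∀ t, IsClosed (E t) := by
    rintro ((r | k) | U)
    · show IsClosed {y : K | (y : X) = r}
      exact isClosed_eq continuous_subtype_val continuous_const
    · show IsClosed {y : K | f^[k + 1] (y : X) = y}
      exact isClosed_eq ((hf.iterate (k + 1)).comp continuous_subtype_val) continuous_subtype_val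
    · show IsClosed (if ((U : Set X) ∩ K).Nonempty then
        {y : K | ∀ i : ℕ, f^[i] (y : X) ∉ (U : Set X)} else ∅)
      split_ifs
      · have h1 : {y : K | ∀ i : ℕ, f^[i] (y : X) ∉ (U : Set X)} =
            ⋂ i : ℕ, {y : K | f^[i] (y : X) ∉ (U : Set X)} := by
          ext y
          simp
        rw [h1]
        apply isClosed_iInter
        intro i
        have : IsOpen {y : K | f^[i] (y : X) ∈ (U : Set X)} :=
          (hBb.isOpen U.2).preimage ((hf.iterate i).comp continuous_subtype_val)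
        exact this.isClosed_compl
      · exact isClosed_empty
  have hcov : ⋃ t, E t = univ := by
    rw [eq_univ_iff_forall]
    intro y
    rw [mem_iUnion]
    by_cases hyp : (y : X) ∈ Per f
    · obtain ⟨k, hk, hky⟩ := hyp
      refine ⟨Sum.inl (Sum.inr (k - 1)), ?_⟩
      show f^[k - 1 + 1] (y : X) = y
      rw [Nat.sub_add_cancel hk]
      exact hky
    by_cases hy : (y : X) ∈ Rec f
    · exact ⟨Sum.inl (Sum.inl ⟨y, hy, hyp⟩), rfl⟩
    · by_contra hcon
      push Not at hcon
      apply hy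
      intro W hW
      -- a basis element inside `W` without `y`
      obtain ⟨O, hOW, hO, hyO⟩ := _root_.mem_nhds_iff.1 hW
      obtain ⟨z, ⟨hzO, hzK⟩, hzy⟩ := preperfect_iff_nhds.1 hperf.acc (y : X) y.2 O
        (hO.mem_nhds hyO)
      obtain ⟨U, hUB, hzU, hUO⟩ := hBb.exists_subset_of_mem_open
        (show z ∈ O \ {(y : X)} from ⟨hzO, hzy⟩) (hO.sdiff isClosed_singleton)
      have h1 := hcon (Sum.inr ⟨U, hUB⟩)
      have hne : (U ∩ K).Nonempty := ⟨z, hzU, hzK⟩
      have h2 : ¬ ∀ i : ℕ, f^[i] (y : X) ∉ U := by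
        intro h3
        apply h1
        show y ∈ (if (U ∩ K).Nonempty then {y : K | ∀ i : ℕ, f^[i] (y : X) ∉ U} else ∅)
        rw [if_pos hne]
        exact h3
      push Not at h2
      obtain ⟨i, hi⟩ := h2
      refine ⟨i, ?_, hOW (hUO hi).1⟩
      rcases Nat.eq_zero_or_pos i with h0 | h0
      · exfalso
        rw [h0] at hi
        exact (hUO hi).2 rfl
      · exact h0
  have hKne : Nonempty K := ⟨⟨x, subset_closure ⟨0, rfl⟩⟩⟩
  obtain ⟨t, y, hy⟩ := nonempty_interior_of_iUnion_of_closed hE hcov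
  -- an open set of `X` whose trace on `K` is contained in `E t`
  obtain ⟨V, hV, hyV⟩ := mem_interior.1 hy
  obtain ⟨O, hO, rfl⟩ := isOpen_induced_iff.1 hyV.1
  have hyO : (y : X) ∈ O := hyV.2
  rcases t with (r | k) | U
  · -- `K` has no isolated point
    obtain ⟨z, ⟨hzO, hzK⟩, hzy⟩ := preperfect_iff_nhds.1 hperf.acc (y : X) y.2 O
      (hO.mem_nhds hyO)
    have h1 : (⟨z, hzK⟩ : K) ∈ {y : K | (y : X) = r} := hV hzO
    have h2 : y ∈ {y : K | (y : X) = r} := hV hyO
    exact hzy ((show z = r from h1).trans (show (y : X) = r from h2).symm)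
  · -- periodic points have empty interior in `K`
    obtain ⟨a, -, ha⟩ := hlate O hO ⟨y, hyO, y.2⟩ 0
    have haK : f^[a] x ∈ K := subset_closure ⟨a, rfl⟩
    have h1 : (⟨f^[a] x, haK⟩ : K) ∈ {y : K | f^[k + 1] (y : X) = y} := hV ha
    have h2 : f^[k + 1] (f^[a] x) = f^[a] x := h1
    apply hxP
    refine ⟨k + 1, by omega, hinj.iterate a ?_⟩
    rw [← Function.iterate_add_apply, Nat.add_comm, Function.iterate_add_apply]
    exact h2
  · by_cases hne : ((U : Set X) ∩ K).Nonempty
    · obtain ⟨a, -, ha⟩ := hlate O hO ⟨y, hyO, y.2⟩ 0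
      obtain ⟨b, hb, hbU⟩ := hlate U (hBb.isOpen U.2) hne a
      have haK : f^[a] x ∈ K := subset_closure ⟨a, rfl⟩
      have h1 : (⟨f^[a] x, haK⟩ : K) ∈ (if ((U : Set X) ∩ K).Nonempty then
        {y : K | ∀ i : ℕ, f^[i] (y : X) ∉ (U : Set X)} else ∅) := hV ha
      rw [if_pos hne] at h1
      apply h1 (b - a)
      show f^[b - a] (f^[a] x) ∈ (U : Set X)
      rw [← Function.iterate_add_apply, Nat.sub_add_cancel hb]
      exact hbU
    · have h1 : y ∈ (if ((U : Set X) ∩ K).Nonempty then
        {y : K | ∀ i : ℕ, f^[i] (y : X) ∉ (U : Set X)} else ∅) := hV hyO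
      rw [if_neg hne] at h1
      exact h1

end Pool.Agent.Y504.CO.RC
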