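import Pool.Agent.H74.G.R_seed8.Y504.CO.Asm
import Pool.Agent.H74.G.R_seed8.Y504.CO.Stm5

/-!
# Diffeomorphisms all of whose recurrent points are periodic: assembly
-/

set_option autoImplicit false
set_option linter.unusedSectionVars false

open scoped Manifold ContDiff Topology
open Filter Set Metric

universe u

namespace Pool.Agent.Y504.CO

open Pool.Agent.H718R2.G Pool.Agent.TH80.OMS

theorem rec_sub_omega {N : Type u} [TopologicalSpace N] {F : N → N} {x : N} (hx : x ∈ Rec F) :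
    x ∈ Omega F := by
  intro W hW hxW
  obtain ⟨k, hk, h⟩ := hx W (hW.mem_nhds hxW)
  exact ⟨k, hk, x, hxW, h⟩

theorem rec_conj {N : Type u} [TopologicalSpace N] {F G : N → N} (hF : Continuous F)
    (hG : Continuous G) (h : OmegaConj F G) (hR : Rec F ⊆ Per F) : Rec G ⊆ Per G := by
  obtain ⟨h, hh⟩ := h
  intro y hy
  have hyo : y ∈ Omega G := rec_sub_omega hy
  have hsym := conj_symm hF h hh
  have hx : (h.symm ⟨y, hyo⟩ : N) ∈ Rec F := by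
    intro W hW
    have hc : Tendsto (fun z : Omega G => (h.symm z : N)) (𝓝 ⟨y, hyo⟩)
        (𝓝 (h.symm ⟨y, hyo⟩ : N)) :=
      (continuous_subtype_val.comp h.symm.continuous).tendsto _
    have h1 := hc hW
    rw [mem_map, nhds_subtype_eq_comap, mem_comap] at h1
    obtain ⟨O, hO, hOW⟩ := h1
    obtain ⟨k, hk, hkO⟩ := hy O hO
    have hko : G^[k] y ∈ Omega G := by
      have : ∀ i : ℕ, G^[i] y ∈ Omega G := by
        intro i
        induction i with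
        | zero => exact hyo
        | succ i ih => rw [Function.iterate_succ_apply']; exact omega_maps hG ih
      exact this k
    refine ⟨k, hk, ?_⟩
    have h2 := conj_iter hG h.symm hsym k ⟨y, hyo⟩ ⟨G^[k] y, hko⟩ rfl
    rw [h2]
    exact hOW (show (⟨G^[k] y, hko⟩ : Omega G) ∈ Subtype.val ⁻¹' O from hkO)
  obtain ⟨m, hm, hmx⟩ := hR hx
  have h3 := conj_iter hF h hh m (h.symm ⟨y, hyo⟩) (h.symm ⟨y, hyo⟩) hmx
  rw [h.apply_symm_apply] at h3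
  exact ⟨m, hm, h3⟩

section main

variable {n : ℕ} {N : Type u} [TopologicalSpace N] [T2Space N] [CompactSpace N]
  [ChartedSpace (V n) N] [IsManifold (𝓡 n) ∞ N]

theorem cyc_of_metric [TopologicalSpace.MetrizableSpace N] (hK1 : S_K1.{u}) (hK2 : S_K2.{u})
    (hK3 : S_K3.{u}) (hK4 : S_K4.{u}) (hK5 : S_K5.{u}) (f : N ≃ₜ N) (hR : Rec f ⊆ Per f)
    (hi : ∀ p ∈ Per f, Isolated f p) (hn : ¬ ((Omega f).Finite ∧ Omega f ⊆ Per f)) :
    ∃ k, Cyc f k := by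
  letI : MetricSpace N := TopologicalSpace.metrizableSpaceMetric N
  obtain ⟨H, hH⟩ := hK1 N f hi hn
  have h2 := hK2 N f hi hR H hH
  have h3 := hK3 N f hi H hH h2
  have h4 := hK4 N f hi H hH
  refine hK5 N f H h3 ?_ h4 h2
  obtain ⟨y, hyH, hyP⟩ := Set.not_subset.1 hH.2.1
  obtain ⟨p, hp, hpH, -⟩ := h2 y hyH hyP
  exact ⟨p, hp, hpH⟩

theorem rob (hK1 : S_K1.{u}) (hK2 : S_K2.{u}) (hK3 : S_K3.{u}) (hK4 : S_K4.{u}) (hK5 : S_K5.{u})
    (hK7 : S_K7.{u}) (hISO : S_ISO.{u}) (hTR2 : S_TR2.{u}) (hNC2 : S_NC2.{u}) {r : ℕ∞}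
    (hr : 1 ≤ r) {F : DiffM n N r} (U : Set (DiffM n N r)) (hU : IsOpen[strongTop n N r] U)
    (hR : ∀ g ∈ U, Rec g ⊆ Per g) (hFU : F ∈ U) (hH : ∀ p ∈ Per F, HypAt n F p) :
    (Omega F).Finite ∧ Omega F ⊆ Per F ∧ (∀ p ∈ Per F, HypAt n F p) ∧ ∀ k, ¬ Cyc F k := by
  have hnh : ∀ g ∈ U, ∀ p z, HypAt n g p → ¬ Homoclinic g p z := by
    intro g hg p z hhyp hz
    obtain ⟨g', hg', ψ, m, L, ζ, h⟩ := hTR2 n N r hr U hU g hg p z hhyp hz
    obtain ⟨x, hx, hx'⟩ := hK7 n N g' g'.continuous ψ m L ζ h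
    exact hx' (hR g' hg' hx)
  have hnc := hNC2 n N r hr U hU hnh F hFU hH
  have hfp : (Omega F).Finite ∧ Omega F ⊆ Per F := by
    by_contra hn
    have := exists_metric n N
    obtain ⟨k, hk⟩ := cyc_of_metric hK1 hK2 hK3 hK4 hK5 F.toHomeomorph (hR F hFU)
      (fun p hp => hISO n N r hr F p hp (hH p hp)) hn
    exact hnc k hk
  exact ⟨hfp.1, hfp.2, hH, hnc⟩

/-- For an `Ω`-stable `F`: all periodic points of all nearby maps are hyperbolic. -/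
theorem stable_hyp (hF2 : S_F2.{u}) {r : ℕ∞} (hr : 1 ≤ r) {F : DiffM n N r}
    (hF : OmegaStable n N r F) : ∃ U : Set (DiffM n N r), IsOpen[strongTop n N r] U ∧ F ∈ U ∧
      (∀ g ∈ U, OmegaConj F g) ∧ ∀ g ∈ U, ∀ p ∈ Per g, HypAt n g p := by
  obtain ⟨U₁, hU₁, hFU₁, hfin⟩ := finite_per hr hF
  obtain ⟨U₀, hU₀, hFU₀, hconj⟩ := hF
  have hU : IsOpen[strongTop n N r] (U₀ ∩ U₁) := @IsOpen.inter _ (strongTop n N r) _ _ hU₀ hU₁
  set U := U₀ ∩ U₁ with hUdef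
  have hcard : ∀ g ∈ U, ∀ g' ∈ U, ∀ k : ℕ, 1 ≤ k →
      Set.ncard {x | g^[k] x = x} = Set.ncard {x | g'^[k] x = x} := by
    intro g hg g' hg' k hk
    rw [← ncard_conj F.continuous g.continuous (hconj g hg.1) hk,
      ← ncard_conj F.continuous g'.continuous (hconj g' hg'.1) hk]
  exact ⟨U, hU, ⟨hFU₀, hFU₁⟩, fun g hg => hconj g hg.1,
    hF2 n N r hr U hU (fun g hg => hfin g hg.2) hcard⟩

theorem recm (hK1 : S_K1.{u}) (hK2 : S_K2.{u}) (hK3 : S_K3.{u}) (hK4 : S_K4.{u}) (hK5 : S_K5.{u})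
    (hK7 : S_K7.{u}) (hISO : S_ISO.{u}) (hTR2 : S_TR2.{u}) (hNC2 : S_NC2.{u}) (hF2 : S_F2.{u})
    {r : ℕ∞} (hr : 1 ≤ r) {F : DiffM n N r} (hF : OmegaStable n N r F) (hR : Rec F ⊆ Per F) :
    (Omega F).Finite ∧ Omega F ⊆ Per F ∧ (∀ p ∈ Per F, HypAt n F p) ∧ ∀ k, ¬ Cyc F k := by
  obtain ⟨U, hU, hFU, hconj, hhyp⟩ := stable_hyp hF2 hr hF
  exact rob hK1 hK2 hK3 hK4 hK5 hK7 hISO hTR2 hNC2 hr U hU
    (fun g hg => rec_conj F.continuous g.continuous (hconj g hg) hR) hFU (hhyp F hFU)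

end main

/-- `p` is a hyperbolic periodic point of `F`: `F^m(p) = p` for some `m ≥ 1`, and for every such `m`
no eigenvalue of the derivative of `F^m` at `p` (in any chart) has modulus one. -/
def IsHyperbolicPer (n : ℕ) {N : Type u} [TopologicalSpace N] [ChartedSpace (V n) N]
    (F : N → N) (p : N) : Prop :=
  p ∈ Per F ∧ ∀ m : ℕ, 1 ≤ m → F^[m] p = p → ∀ ψ ∈ IsManifold.maximalAtlas (𝓡 n) ∞ N,
    p ∈ ψ.source → ∃ D : V n →L[ℝ] V n, HasFDerivAt (fun v => ψ (F^[m] (ψ.symm v))) D (ψ p) ∧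
      ∀ μ : ℂ, ((LinearMap.charpoly (D : V n →ₗ[ℝ] V n)).map (algebraMap ℝ ℂ)).IsRoot μ → ‖μ‖ ≠ 1

end Pool.Agent.Y504.CO
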