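import Pool.Agent.H74.G.R_seed8.Y504.CO.Stm2

/-!
# Diffeomorphisms with robustly countable nonwandering set: statements
-/

set_option autoImplicit false

open scoped Manifold ContDiff Topology
open Filter Set Metric

universe u

namespace Pool.Agent.Y504.CO

open Pool.Agent.H718R2.G Pool.Agent.TH80.OMS

/-- HB2: creation of a homoclinic orbit, without changing the map near the periodic orbit. -/
def S_HB2 : Prop :=
  ∀ (n : ℕ) (N : Type u) [TopologicalSpace N] [T2Space N] [CompactSpace N] [ChartedSpace (V n) N]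
    [IsManifold (𝓡 n) ∞ N] (r : ℕ∞), 1 ≤ r → ∀ (f : DiffM n N r) (U : Set (DiffM n N r)),
    IsOpen[strongTop n N r] U → f ∈ U → Out f → ∃ g ∈ U, ∃ p z, Homoclinic g p z ∧ p ∈ Per f ∧
      ∃ A : Set N, IsOpen A ∧ orb f p ⊆ A ∧ ∀ y ∈ A, g y = f y

/-- TR2: a homoclinic orbit of a hyperbolic periodic orbit becomes transverse after a small
perturbation. -/
def S_TR2 : Prop :=
  ∀ (n : ℕ) (N : Type u) [TopologicalSpace N] [T2Space N] [CompactSpace N] [ChartedSpace (V n) N]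
    [IsManifold (𝓡 n) ∞ N] (r : ℕ∞), 1 ≤ r → ∀ U : Set (DiffM n N r),
    IsOpen[strongTop n N r] U → ∀ g ∈ U, ∀ p z, HypAt n g p →
    Homoclinic g p z → ∃ g' ∈ U, ∃ (ψ : OpenPartialHomeomorph N (V n)) (m L : ℕ) (ζ : ℤ → V n),
      HomM g' ψ m L ζ

/-- NC2: no cycles of hyperbolic periodic orbits. -/
def S_NC2 : Prop :=
  ∀ (n : ℕ) (N : Type u) [TopologicalSpace N] [T2Space N] [CompactSpace N] [ChartedSpace (V n) N]
    [IsManifold (𝓡 n) ∞ N] (r : ℕ∞), 1 ≤ r → ∀ U : Set (DiffM n N r),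
    IsOpen[strongTop n N r] U → (∀ g ∈ U, ∀ p z, HypAt n g p → ¬ Homoclinic g p z) →
    ∀ g ∈ U, (∀ p ∈ Per g, HypAt n g p) → ∀ k, ¬ Cyc g k

/-- HT: hyperbolicity depends only on the map near the orbit. -/
theorem hypAt_congr {n : ℕ} {N : Type u} [TopologicalSpace N] [ChartedSpace (V n) N]
    {f g : N → N} (hf : Continuous f) {p : N} {A : Set N} (hA : IsOpen A) (hpA : orb f p ⊆ A)
    (hfg : ∀ y ∈ A, g y = f y) (h : HypAt n f p) : HypAt n g p := by
  have hit : ∀ i : ℕ, ∀ᶠ y in 𝓝 p, g^[i] y = f^[i] y := by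
    intro i
    induction i with
    | zero => exact Filter.Eventually.of_forall fun y => rfl
    | succ i ih =>
      have h1 : ∀ᶠ y in 𝓝 p, f^[i] y ∈ A :=
        (hf.iterate i).continuousAt.eventually (hA.mem_nhds (hpA ⟨i, rfl⟩))
      filter_upwards [ih, h1] with y hy hy'
      rw [Function.iterate_succ_apply', hy, hfg _ hy', Function.iterate_succ_apply']
  intro m hm hgm ψ hψ hpψ
  have hfm : f^[m] p = p := by rw [← (hit m).self_of_nhds]; exact hgm
  have h2 := h m hm hfm ψ hψ hpψ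
  have h3 : (fun v => ψ (g^[m] (ψ.symm v))) =ᶠ[𝓝 (ψ p)] (fun v => ψ (f^[m] (ψ.symm v))) := by
    have h4 : ContinuousAt ψ.symm (ψ p) := ψ.continuousAt_symm (ψ.map_source hpψ)
    have h5 : Tendsto ψ.symm (𝓝 (ψ p)) (𝓝 p) := by
      have := h4.tendsto
      rwa [ψ.left_inv hpψ] at this
    filter_upwards [h5.eventually (hit m)] with v hv
    show ψ (g^[m] (ψ.symm v)) = ψ (f^[m] (ψ.symm v))
    rw [hv]
  rw [h3.fderiv_eq]
  exact h2

end Pool.Agent.Y504.CO
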