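import Pool.Agent.H74.G.R_seed8.Y504.CO.Stm2
import Pool.Agent.H74.G.R_seed8.TH80.OMS.Push

/-!
# Linear families of diffeomorphisms of `ℝⁿ`: statement
-/

set_option autoImplicit false

open scoped Manifold ContDiff Topology
open Filter Set Metric

universe u

namespace Pool.Agent.Y504.CO

open Pool.Agent.H718R2.G Pool.Agent.TH80.OMS

/-- LF: a compactly supported family which is linear near the origin. -/
def S_LF : Prop :=
  ∀ (j n : ℕ) (𝒮 : V j →L[ℝ] (V n →L[ℝ] V n)), ∃ (F F' : V j × V n → V n) (κ : ℝ), 0 < κ ∧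
    LFam j n F F' ∧ ∀ x v, ‖x‖ < κ → ‖v‖ < 1 / 4 → F (x, v) = v + 𝒮 x v

end Pool.Agent.Y504.CO
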